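import Pool.Agent.H74.StepGrp

set_option autoImplicit false

namespace Pool.Agent.Results.MP_5f76cf_al.NotAmenable

open Pool.Agent.H74.StepGrp

/-- A countable metrisable group with an unbounded maximal compatible left-invariant metric `d`
and a continuous affine isometric action on a real Hilbert space whose cocycle grows faster than
the square root of the distance, which is not amenable. -/
theorem result :
    ∃ (G : Type) (_ : Group G) (_ : TopologicalSpace G) (_ : IsTopologicalGroup G)
      (d : G → G → ℝ), Countable G ∧ IsMaximal G d ∧ (∀ R : ℝ, ∃ g, R ≤ d g 1) ∧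
      (∃ (H : Type) (_ : NormedAddCommGroup H) (_ : InnerProductSpace ℝ H) (_ : CompleteSpace H)
        (α : G →* (H ≃ᵃⁱ[ℝ] H)), Continuous (fun p : G × H => α p.1 p.2) ∧
        ∃ a : ℝ, 1 / 2 < a ∧ ∃ C : ℝ, 0 < C ∧ ∀ g : G, 1 / C * d g 1 ^ a - C ≤ ‖α g 0‖) ∧
      ¬ IsAmenable G := by
  refine ⟨G, inferInstance, inferInstance, inferInstance, dist, inferInstance, maximal, ?_,
    ⟨ℝ, inferInstance, inferInstance, inferInstance, alpha, ?_, 1, by norm_num, 1, one_pos, ?_⟩,
    not_amenable⟩
  · intro R
    refine ⟨inr ⌈R⌉, le_trans ?_ (le_dist_one _)⟩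
    exact (Int.le_ceil R).trans (le_abs_self _)
  · exact (nn_cont.comp continuous_fst).add continuous_snd
  · intro g
    have := dist_one_le g
    rw [alpha_apply, add_zero, Real.norm_eq_abs, Real.rpow_one]
    linarith

end Pool.Agent.Results.MP_5f76cf_al.NotAmenable
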